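import Mathlib

set_option autoImplicit false

/-!
# Integers `n` for which every `n - 2 ^ k` is squarefree (MP_fcd74d_nt)

We prove that there are infinitely many `n` such that `n - 2 ^ k` is squarefree for all `k ≥ 1` with
`2 ^ k < n`. Let `y` be large and let `Q` be the product of the odd primes up to `y`, so that
`Q ≤ 4 ^ y`. We look at the numbers `n = Q (2 j + 1)` with `j < M = 2 ^ (6 y - 1)`; they are at most
`2 ^ (8 y)`. If `p ^ 2` divides `n - 2 ^ k`, then `p` is odd, and `p` does not divide `n`, so `p > y`.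
For each of the at most `8 y` exponents `k` and each prime `p` with `y < p ≤ 2 ^ (4 y)` there are at
most `M / p ^ 2 + 1` bad values of `j`. Since the primes have density zero, the sum of `8 y / p ^ 2`
over the primes `p > y` tends to zero as `y` grows, and `8 y * 2 ^ (4 y)` is small compared
with `M`. So most values of `j` give a good `n`.
-/

namespace Pool.Agent.Results.MP_fcd74d_nt.GoodIntegers

/-- `n` is good: `n ≥ 3` and `n - 2 ^ k` is squarefree for every `k ≥ 1` with `2 ^ k < n` -/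
def Good (n : ℕ) : Prop := 3 ≤ n ∧ ∀ k : ℕ, 1 ≤ k → 2 ^ k < n → Squarefree (n - 2 ^ k)

/-- the primes have density zero -/
lemma pi_small {δ : ℝ} (hδ : 0 < δ) :
    ∃ N0 : ℕ, ∀ n : ℕ, N0 ≤ n → (Nat.primeCounting n : ℝ) ≤ δ * n := by
  have h := Chebyshev.eventually_primeCounting_le (ε := 1) one_pos
  have h2 : ∀ᶠ x : ℝ in Filter.atTop, (Real.log 4 + 1) / δ ≤ Real.log x :=
    Real.tendsto_log_atTop.eventually_ge_atTop _
  obtain ⟨X, hX⟩ := Filter.eventually_atTop.mp ((h.and h2).and (Filter.eventually_ge_atTop 1))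
  refine ⟨⌈X⌉₊, fun n hn => ?_⟩
  obtain ⟨⟨h3, h4⟩, h5⟩ := hX n (Nat.ceil_le.mp hn)
  rw [Nat.floor_natCast] at h3
  have hl4 : 0 < Real.log 4 + 1 := by
    have := Real.log_nonneg (show (1 : ℝ) ≤ 4 by norm_num)
    linarith
  have hl : 0 < Real.log n := lt_of_lt_of_le (div_pos hl4 hδ) h4
  refine h3.trans ?_
  rw [div_le_iff₀ hl]
  rw [div_le_iff₀ hδ] at h4
  have hn0 : (0 : ℝ) ≤ n := Nat.cast_nonneg n
  nlinarith

lemma card_primes_le (a b : ℕ) :
    ((Finset.Ioc a b).filter Nat.Prime).card ≤ Nat.primeCounting b := by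
  rw [← Nat.primesLE_card_eq_primeCounting]
  refine Finset.card_le_card fun p hp => ?_
  simp only [Finset.mem_filter, Finset.mem_Ioc] at hp
  simp only [Nat.mem_primesLE]
  exact ⟨hp.1.2, hp.2⟩

/-- the sum of `1 / p ^ 2` over the primes above `y` -/
lemma sum_primes {δ : ℝ} (hδ : 0 < δ) {y : ℕ} (hy : 0 < y)
    (H : ∀ n : ℕ, y ≤ n → (Nat.primeCounting n : ℝ) ≤ δ * n) (I : ℕ) :
    ∑ p ∈ (Finset.Ioc y (2 ^ I * y)).filter Nat.Prime, (1 / (p : ℝ) ^ 2)
      ≤ 4 * δ / y * (1 - (1 / 2) ^ I) := by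
  have hy' : (0 : ℝ) < y := by exact_mod_cast hy
  induction I with
  | zero => simp
  | succ I ih =>
    have h1 : (Finset.Ioc y (2 ^ (I + 1) * y)).filter Nat.Prime
        = (Finset.Ioc y (2 ^ I * y)).filter Nat.Prime ∪
          (Finset.Ioc (2 ^ I * y) (2 ^ (I + 1) * y)).filter Nat.Prime := by
      ext p
      simp only [Finset.mem_filter, Finset.mem_Ioc, Finset.mem_union]
      have h2 : y ≤ 2 ^ I * y := Nat.le_mul_of_pos_left _ (by positivity)
      have h3 : 2 ^ I * y ≤ 2 ^ (I + 1) * y := by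
        rw [pow_succ]; nlinarith [Nat.zero_le (2 ^ I * y)]
      constructor
      · rintro ⟨⟨h4, h5⟩, h6⟩
        by_cases h7 : p ≤ 2 ^ I * y
        · exact Or.inl ⟨⟨h4, h7⟩, h6⟩
        · exact Or.inr ⟨⟨by omega, h5⟩, h6⟩
      · rintro (⟨⟨h4, h5⟩, h6⟩ | ⟨⟨h4, h5⟩, h6⟩)
        · exact ⟨⟨h4, by omega⟩, h6⟩
        · exact ⟨⟨by omega, h5⟩, h6⟩
    have hdis : Disjoint ((Finset.Ioc y (2 ^ I * y)).filter Nat.Prime)
        ((Finset.Ioc (2 ^ I * y) (2 ^ (I + 1) * y)).filter Nat.Prime) := by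
      rw [Finset.disjoint_left]
      intro p hp hp'
      simp only [Finset.mem_filter, Finset.mem_Ioc] at hp hp'
      omega
    rw [h1, Finset.sum_union hdis]
    have h8 : ∑ p ∈ (Finset.Ioc (2 ^ I * y) (2 ^ (I + 1) * y)).filter Nat.Prime,
        (1 / (p : ℝ) ^ 2) ≤ 2 * δ / y * (1 / 2) ^ I := by
      have h9 : ∀ p ∈ (Finset.Ioc (2 ^ I * y) (2 ^ (I + 1) * y)).filter Nat.Prime,
          (1 / (p : ℝ) ^ 2) ≤ 1 / (2 ^ I * (y : ℝ)) ^ 2 := by
        intro p hp
        simp only [Finset.mem_filter, Finset.mem_Ioc] at hp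
        have h10 : (2 ^ I * (y : ℝ)) ≤ p := by exact_mod_cast hp.1.1.le
        have h11 : 0 < (2 ^ I * (y : ℝ)) := by positivity
        exact one_div_le_one_div_of_le (by positivity) (pow_le_pow_left₀ h11.le h10 2)
      refine (Finset.sum_le_sum h9).trans ?_
      rw [Finset.sum_const, nsmul_eq_mul]
      have h12 : (((Finset.Ioc (2 ^ I * y) (2 ^ (I + 1) * y)).filter Nat.Prime).card : ℝ)
          ≤ δ * (2 ^ (I + 1) * (y : ℝ)) := by
        refine (Nat.cast_le.mpr (card_primes_le _ _)).trans ?_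
        have := H (2 ^ (I + 1) * y) (Nat.le_mul_of_pos_left _ (by positivity))
        push_cast at this
        exact this
      refine (mul_le_mul_of_nonneg_right h12 (by positivity)).trans (le_of_eq ?_)
      have h13 : (2 : ℝ) ^ I ≠ 0 := by positivity
      rw [one_div_pow]
      field_simp
      ring
    refine (add_le_add ih h8).trans (le_of_eq ?_)
    rw [pow_succ]
    ring

/-- the odd part of the primorial -/
def Q (y : ℕ) : ℕ := ∏ p ∈ (Nat.primesLE y).erase 2, p

lemma Q_pos (y : ℕ) : 0 < Q y := by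
  refine Finset.prod_pos fun p hp => ?_
  rw [Finset.mem_erase, Nat.mem_primesLE] at hp
  exact hp.2.2.pos

lemma Q_le (y : ℕ) : Q y ≤ 4 ^ y := by
  refine le_trans ?_ (primorial_le_four_pow y)
  rw [primorial_eq_prod_primesLE]
  refine Finset.prod_le_prod_of_subset_of_one_le' (Finset.erase_subset _ _) fun p hp _ => ?_
  rw [Nat.mem_primesLE] at hp
  exact hp.2.one_le

lemma Q_odd (y : ℕ) : Nat.Coprime 2 (Q y) := by
  refine Nat.Coprime.prod_right fun p hp => ?_
  rw [Finset.mem_erase, Nat.mem_primesLE] at hp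
  exact (Nat.coprime_primes Nat.prime_two hp.2.2).mpr (Ne.symm hp.1)

lemma dvd_Q {y p : ℕ} (hp : p.Prime) (h2 : p ≠ 2) (h : p ≤ y) : p ∣ Q y := by
  refine Finset.dvd_prod_of_mem (fun p : ℕ => p) ?_
  rw [Finset.mem_erase, Nat.mem_primesLE]
  exact ⟨h2, h, hp⟩

lemma coprime_Q {y p : ℕ} (hp : p.Prime) (h : y < p) : Nat.Coprime p (Q y) := by
  refine Nat.Coprime.prod_right fun q hq => ?_
  rw [Finset.mem_erase, Nat.mem_primesLE] at hq
  exact (Nat.coprime_primes hp hq.2.2).mpr (by omega)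

/-- the bad values of `j` for one exponent and one prime -/
def badSet (y M k p : ℕ) : Finset ℕ :=
  (Finset.range M).filter fun j =>
    2 ^ k < Q y * (2 * j + 1) ∧ p ^ 2 ∣ Q y * (2 * j + 1) - 2 ^ k

lemma card_badSet {y M k p : ℕ} (hp : p.Prime) (h2 : p ≠ 2) (h : y < p) :
    (badSet y M k p).card ≤ M / p ^ 2 + 1 := by
  rcases Finset.eq_empty_or_nonempty (badSet y M k p) with he | ⟨j0, hj0⟩
  · rw [he]; simp
  · have hpp : 0 < p ^ 2 := pow_pos hp.pos 2
    have hcop : Nat.Coprime (p ^ 2) (2 * Q y) := by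
      refine Nat.Coprime.pow_left 2 (Nat.Coprime.mul_right ?_ (coprime_Q hp h))
      exact (Nat.coprime_primes hp Nat.prime_two).mpr h2
    have hsub : badSet y M k p ⊆ (Finset.range M).filter (fun j => j ≡ j0 [MOD p ^ 2]) := by
      intro j hj
      simp only [badSet, Finset.mem_filter, Finset.mem_range] at hj hj0 ⊢
      refine ⟨hj.1, ?_⟩
      have e1 : Q y * (2 * j + 1) ≡ 2 ^ k [MOD p ^ 2] :=
        ((Nat.modEq_iff_dvd' hj.2.1.le).mpr hj.2.2).symm
      have e2 : Q y * (2 * j0 + 1) ≡ 2 ^ k [MOD p ^ 2] :=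
        ((Nat.modEq_iff_dvd' hj0.2.1.le).mpr hj0.2.2).symm
      have e3 : 2 * Q y * j + Q y ≡ 2 * Q y * j0 + Q y [MOD p ^ 2] := by
        have e4 := e1.trans e2.symm
        have e5 : Q y * (2 * j + 1) = 2 * Q y * j + Q y := by ring
        have e6 : Q y * (2 * j0 + 1) = 2 * Q y * j0 + Q y := by ring
        rw [e5, e6] at e4
        exact e4
      exact Nat.ModEq.cancel_left_of_coprime hcop (Nat.ModEq.add_right_cancel' _ e3)
    refine (Finset.card_le_card hsub).trans ?_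
    have h3 := Nat.count_modEq_card M hpp j0
    rw [Nat.count_eq_card_filter_range] at h3
    rw [h3]
    split_ifs <;> omega

/-- for all large `y` most of the candidates are good -/
lemma main {y : ℕ} (hy : 5 ≤ y)
    (H : ∀ n : ℕ, y ≤ n → (Nat.primeCounting n : ℝ) ≤ 1 / 64 * n) :
    ∃ j : ℕ, ∀ k : ℕ, 1 ≤ k → 2 ^ k < Q y * (2 * j + 1) →
      Squarefree (Q y * (2 * j + 1) - 2 ^ k) := by
  by_contra hcon
  push Not at hcon
  set M : ℕ := 2 ^ (6 * y - 1) with hM
  set S : Finset ℕ := (Finset.Ioc y (2 ^ (4 * y))).filter Nat.Prime with hS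
  -- every candidate lies in some bad set
  have hcover : Finset.range M ⊆ (Finset.range (8 * y)).biUnion fun k =>
      S.biUnion fun p => badSet y M k p := by
    intro j hj
    rw [Finset.mem_range] at hj
    obtain ⟨k, hk1, hk2, hk3⟩ := hcon j
    have hn : Q y * (2 * j + 1) < 2 ^ (8 * y) := by
      have h1 : Q y * (2 * j + 1) < Q y * (2 * M) :=
        Nat.mul_lt_mul_of_pos_left (by omega) (Q_pos y)
      have h2 : Q y * (2 * M) ≤ 4 ^ y * (2 * M) := Nat.mul_le_mul_right _ (Q_le y)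
      have h3 : 4 ^ y * (2 * M) = 2 ^ (8 * y) := by
        rw [hM, ← pow_succ', show (4 : ℕ) = 2 ^ 2 by norm_num, ← pow_mul, ← pow_add]
        congr 1
        omega
      omega
    rw [Nat.squarefree_iff_prime_squarefree] at hk3
    push Not at hk3
    obtain ⟨p, hp, hpd⟩ := hk3
    have hkodd : Nat.Coprime 2 (Q y * (2 * j + 1)) := by
      exact Nat.Coprime.mul_right (Q_odd y) (Nat.coprime_two_left.mpr ⟨j, rfl⟩)
    have hdvd : p ∣ Q y * (2 * j + 1) - 2 ^ k := (Dvd.intro _ rfl).trans hpd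
    have hp2 : p ≠ 2 := by
      rintro rfl
      have h4 : 2 ∣ Q y * (2 * j + 1) := by
        have h5 : 2 ∣ 2 ^ k := dvd_pow_self 2 (by omega)
        exact (Nat.dvd_sub_iff_left hk2.le h5).mp hdvd
      have h6 : 2 ∣ 1 := by
        have := Nat.dvd_gcd (dvd_refl 2) h4
        rwa [hkodd] at this
      omega
    have hpy : y < p := by
      by_contra hle
      have h4 : p ∣ Q y * (2 * j + 1) := (dvd_Q hp hp2 (by omega)).mul_right _
      have h5 : p ∣ 2 ^ k := (Nat.dvd_sub_iff_right hk2.le h4).mp hdvd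
      exact hp2 ((Nat.prime_dvd_prime_iff_eq hp Nat.prime_two).mp (hp.dvd_of_dvd_pow h5))
    have hpos : 0 < Q y * (2 * j + 1) - 2 ^ k := by omega
    have hple : p ≤ 2 ^ (4 * y) := by
      have h4 : p * p < 2 ^ (8 * y) := 
        lt_of_le_of_lt (Nat.le_of_dvd hpos hpd) (lt_of_le_of_lt (Nat.sub_le _ _) hn)
      have h5 : 2 ^ (8 * y) = 2 ^ (4 * y) * 2 ^ (4 * y) := by
        rw [← pow_add]; congr 1; omega
      rw [h5] at h4
      exact (Nat.mul_self_lt_mul_self_iff.mp h4).le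
    have hk8 : k < 8 * y := (Nat.pow_lt_pow_iff_right (by norm_num)).mp (hk2.trans hn)
    simp only [Finset.mem_biUnion, Finset.mem_range]
    refine ⟨k, hk8, p, ?_, ?_⟩
    · rw [hS, Finset.mem_filter, Finset.mem_Ioc]
      exact ⟨⟨hpy, hple⟩, hp⟩
    · simp only [badSet, Finset.mem_filter, Finset.mem_range]
      exact ⟨hj, hk2, by rw [pow_two]; exact hpd⟩
  -- counting
  have hcard : (M : ℝ) ≤ 8 * y * ∑ p ∈ S, ((M : ℝ) * (1 / (p : ℝ) ^ 2) + 1) := by
    have h1 : M ≤ ∑ k ∈ Finset.range (8 * y), ∑ p ∈ S, (badSet y M k p).card := by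
      calc M = (Finset.range M).card := (Finset.card_range M).symm
        _ ≤ _ := Finset.card_le_card hcover
        _ ≤ ∑ k ∈ Finset.range (8 * y), (S.biUnion fun p => badSet y M k p).card :=
            Finset.card_biUnion_le
        _ ≤ _ := Finset.sum_le_sum fun k _ => Finset.card_biUnion_le
    have h2 : (M : ℝ) ≤ ∑ k ∈ Finset.range (8 * y), ∑ p ∈ S, ((badSet y M k p).card : ℝ) := by
      exact_mod_cast h1
    refine h2.trans ?_
    have h3 : ∀ k ∈ Finset.range (8 * y), ∑ p ∈ S, ((badSet y M k p).card : ℝ)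
        ≤ ∑ p ∈ S, ((M : ℝ) * (1 / (p : ℝ) ^ 2) + 1) := by
      intro k _
      refine Finset.sum_le_sum fun p hp => ?_
      rw [hS, Finset.mem_filter, Finset.mem_Ioc] at hp
      have h4 : (badSet y M k p).card ≤ M / p ^ 2 + 1 :=
        card_badSet hp.2 (by omega) hp.1.1
      have h5 : ((badSet y M k p).card : ℝ) ≤ ((M / p ^ 2 : ℕ) : ℝ) + 1 := by exact_mod_cast h4
      have h6 : ((M / p ^ 2 : ℕ) : ℝ) ≤ (M : ℝ) * (1 / (p : ℝ) ^ 2) := by
        rw [mul_one_div]
        have := @Nat.cast_div_le ℝ _ _ _ M (p ^ 2)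
        push_cast at this
        exact this
      linarith
    refine (Finset.sum_le_sum h3).trans (le_of_eq ?_)
    rw [Finset.sum_const, Finset.card_range, nsmul_eq_mul]
    push_cast
    ring
  have hy0 : 0 < y := by omega
  have hy' : (0 : ℝ) < y := by exact_mod_cast hy0
  have hsum : ∑ p ∈ S, (1 / (p : ℝ) ^ 2) ≤ (1 : ℝ) / 16 / y := by
    have h1 := sum_primes (δ := 1 / 64) (by norm_num) hy0 H (4 * y)
    have h2 : ∑ p ∈ S, (1 / (p : ℝ) ^ 2)
        ≤ ∑ p ∈ (Finset.Ioc y (2 ^ (4 * y) * y)).filter Nat.Prime, (1 / (p : ℝ) ^ 2) := by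
      refine Finset.sum_le_sum_of_subset_of_nonneg ?_ fun p _ _ => by positivity
      rw [hS]
      refine Finset.filter_subset_filter _ (Finset.Ioc_subset_Ioc_right ?_)
      exact Nat.le_mul_of_pos_right _ hy0
    refine h2.trans (h1.trans ?_)
    have h3 : (0 : ℝ) ≤ (1 / 2) ^ (4 * y) := by positivity
    have h4 : 0 ≤ 4 * (1 / 64 : ℝ) / y := by positivity
    calc 4 * (1 / 64 : ℝ) / y * (1 - (1 / 2) ^ (4 * y)) ≤ 4 * (1 / 64 : ℝ) / y * 1 :=
          mul_le_mul_of_nonneg_left (by linarith) h4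
      _ = 1 / 16 / y := by ring
  have hScard : (S.card : ℝ) ≤ 2 ^ (4 * y) := by
    have h1 : S.card ≤ 2 ^ (4 * y) := by
      refine (Finset.card_filter_le _ _).trans ?_
      rw [Nat.card_Ioc]
      exact Nat.sub_le _ _
    exact_mod_cast h1
  rw [Finset.sum_add_distrib, ← Finset.mul_sum, Finset.sum_const, nsmul_eq_mul, mul_one] at hcard
  have hMpos : (0 : ℝ) < M := by rw [hM]; positivity
  have h7 : (M : ℝ) ≤ 8 * y * (M * (1 / 16 / y) + 2 ^ (4 * y)) := by
    refine hcard.trans (mul_le_mul_of_nonneg_left ?_ (by positivity))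
    exact add_le_add (mul_le_mul_of_nonneg_left hsum hMpos.le) hScard
  have h8 : 8 * (y : ℝ) * (M * (1 / 16 / y) + 2 ^ (4 * y)) = M / 2 + 8 * y * 2 ^ (4 * y) := by
    field_simp
    ring
  rw [h8] at h7
  -- `8 y 2 ^ (4 y) < M / 2`
  have h9 : 16 * y * 2 ^ (4 * y) < M := by
    have h10 : M = 2 ^ (2 * y - 1) * 2 ^ (4 * y) := by
      rw [hM, ← pow_add]; congr 1; omega
    rw [h10]
    refine Nat.mul_lt_mul_of_pos_right ?_ (by positivity)
    have h11 : ∀ m : ℕ, 16 * (m + 5) < 2 ^ (2 * (m + 5) - 1) := by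
      intro m
      induction m with
      | zero => norm_num
      | succ m ih =>
        have h12 : 2 * (m + 1 + 5) - 1 = (2 * (m + 5) - 1) + 2 := by omega
        rw [h12, pow_add]
        omega
    have h13 := h11 (y - 5)
    rwa [show y - 5 + 5 = y by omega] at h13
  have h14 : 16 * (y : ℝ) * 2 ^ (4 * y) < M := by exact_mod_cast h9
  linarith

/-- **Answer to Q1: yes.** There are infinitely many good integers. -/
theorem result : {n : ℕ | Good n}.Infinite := by
  obtain ⟨N0, hN0⟩ := pi_small (δ := 1 / 64) (by norm_num)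
  rw [Set.infinite_iff_exists_gt]
  intro a
  obtain ⟨q, hq, hqp⟩ := Nat.exists_infinite_primes (a + 3)
  obtain ⟨j, hj⟩ := main (y := N0 + q + 5) (by omega) fun n hn => hN0 n (by omega)
  have h1 : q ∣ Q (N0 + q + 5) := dvd_Q hqp (by omega) (by omega)
  have h2 : q ≤ Q (N0 + q + 5) := Nat.le_of_dvd (Q_pos _) h1
  have h3 : Q (N0 + q + 5) ≤ Q (N0 + q + 5) * (2 * j + 1) := Nat.le_mul_of_pos_right _ (by omega)
  exact ⟨Q (N0 + q + 5) * (2 * j + 1), ⟨by omega, hj⟩, by omega⟩

end Pool.Agent.Results.MP_fcd74d_nt.GoodIntegers
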